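import Pool.Agent.BEW.StmtsS

/-!
# Row PTA of squad BEW: one eigenvector near `s k`
-/

set_option autoImplicit false

namespace Pool.Agent.BEW.H89

open Set Filter Topology MeasureTheory
open scoped InnerProductSpace ENNReal NNReal
open Pool.Agent.BE01 Pool.Agent.BEL Pool.Agent.BEG Pool.Agent.BEH Pool.Agent.BER Pool.Agent.BEW

noncomputable section

section hb

variable {H : Type} [NormedAddCommGroup H] [InnerProductSpace ℝ H] [CompleteSpace H]
  (s : HilbertBasis ℕ ℝ H)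

omit [CompleteSpace H] in
theorem par (y : H) : HasSum (fun m => ⟪s m, y⟫_ℝ ^ 2) (‖y‖ ^ 2) := by
  have h := s.hasSum_inner_mul_inner y y
  rw [real_inner_self_eq_norm_sq] at h
  have e : (fun m => ⟪s m, y⟫_ℝ ^ 2) = fun m => ⟪y, s m⟫_ℝ * ⟪s m, y⟫_ℝ := by
    funext m
    rw [real_inner_comm y (s m), pow_two]
  rw [e]
  exact h

omit [CompleteSpace H] in
theorem ext_coef {u v : H} (h : ∀ m, ⟪s m, u⟫_ℝ = ⟪s m, v⟫_ℝ) : u = v := by
  have h1 := par s (u - v)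
  have e : (fun m => ⟪s m, u - v⟫_ℝ ^ 2) = fun _ => (0 : ℝ) := by
    funext m
    rw [inner_sub_right, h m, sub_self]
    ring
  rw [e] at h1
  have h2 := h1.unique hasSum_zero
  have h3 : ‖u - v‖ = 0 := by
    rcases pow_eq_zero_iff (two_ne_zero) |>.1 h2 with h3
    exact h3
  exact sub_eq_zero.1 (norm_eq_zero.1 h3)

omit [CompleteSpace H] in
/-- diagonal multiplication -/
theorem diag (a : ℕ → ℝ) (A : ℝ) (hA : 0 ≤ A) (ha : ∀ m, |a m| ≤ A) (y : H) :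
    ∃ z : H, (∀ m, ⟪s m, z⟫_ℝ = a m * ⟪s m, y⟫_ℝ) ∧ ‖z‖ ≤ A * ‖y‖ := by
  have hle : ∀ m, (a m * ⟪s m, y⟫_ℝ) ^ 2 ≤ A ^ 2 * ⟪s m, y⟫_ℝ ^ 2 := by
    intro m
    rw [mul_pow]
    have h1 : a m ^ 2 ≤ A ^ 2 := by
      rw [← sq_abs (a m)]
      exact pow_le_pow_left₀ (abs_nonneg _) (ha m) 2
    exact mul_le_mul_of_nonneg_right h1 (sq_nonneg _)
  have hsum : Summable fun m => (a m * ⟪s m, y⟫_ℝ) ^ 2 :=
    Summable.of_nonneg_of_le (fun m => sq_nonneg _) hle ((par s y).summable.mul_left _)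
  have hmem : Memℓp (fun m => a m * ⟪s m, y⟫_ℝ) 2 := by
    apply memℓp_gen
    have e : (fun m => ‖a m * ⟪s m, y⟫_ℝ‖ ^ (2 : ℝ≥0∞).toReal) =
        fun m => (a m * ⟪s m, y⟫_ℝ) ^ 2 := by
      funext m
      rw [ENNReal.toReal_ofNat, Real.norm_eq_abs]
      have : (2 : ℝ) = ((2 : ℕ) : ℝ) := by norm_num
      rw [this, Real.rpow_natCast, sq_abs]
    rw [e]
    exact hsum
  set f : lp (fun _ : ℕ => ℝ) 2 := ⟨fun m => a m * ⟪s m, y⟫_ℝ, hmem⟩ with hf
  have hz : ∀ m, ⟪s m, s.repr.symm f⟫_ℝ = a m * ⟪s m, y⟫_ℝ := by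
    intro m
    rw [← s.repr_apply_apply, LinearIsometryEquiv.apply_symm_apply]
  refine ⟨s.repr.symm f, hz, ?_⟩
  have h1 := par s (s.repr.symm f)
  have h2 : HasSum (fun m => A ^ 2 * ⟪s m, y⟫_ℝ ^ 2) (A ^ 2 * ‖y‖ ^ 2) :=
    (par s y).mul_left _
  have h3 : ‖s.repr.symm f‖ ^ 2 ≤ A ^ 2 * ‖y‖ ^ 2 := by
    refine hasSum_le (fun m => ?_) h1 h2
    rw [hz m]
    exact hle m
  rw [← mul_pow] at h3
  exact (pow_le_pow_iff_left₀ (norm_nonneg _) (mul_nonneg hA (norm_nonneg _))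
    two_ne_zero).1 h3

end hb

theorem sum_inv (M : ℕ) : ∑ i ∈ Finset.range M, (1 / ((i : ℝ) + 1)) ^ 2 ≤ 2 := by
  have h : ∑ i ∈ Finset.range M, (1 / ((i : ℝ) + 1)) ^ 2 ≤ 2 * (1 - 1 / ((M : ℝ) + 1)) := by
    induction M with
    | zero => simp
    | succ M ih =>
      rw [Finset.sum_range_succ]
      have h1 : (1 / ((M : ℝ) + 1)) ^ 2 ≤ 2 * (1 / ((M : ℝ) + 1) - 1 / ((M : ℝ) + 2)) := by
        have hM : (0 : ℝ) ≤ M := Nat.cast_nonneg M
        have e : 2 * (1 / ((M : ℝ) + 1) - 1 / ((M : ℝ) + 2)) - (1 / ((M : ℝ) + 1)) ^ 2 =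
            M / (((M : ℝ) + 1) ^ 2 * ((M : ℝ) + 2)) := by
          field_simp
          ring
        have h2 : 0 ≤ M / (((M : ℝ) + 1) ^ 2 * ((M : ℝ) + 2)) := by positivity
        linarith
      have e2 : ((M + 1 : ℕ) : ℝ) + 1 = (M : ℝ) + 2 := by push_cast; ring
      rw [e2]
      linarith
  have h2 : 0 ≤ 1 / ((M : ℝ) + 1) := by positivity
  linarith

/-- the weights -/
def cw (k m : ℕ) : ℝ := if m = k then 0 else 1 / |(m : ℝ) - k|

theorem sum_cw (k N : ℕ) : ∑ m ∈ Finset.range N, cw k m ^ 2 ≤ 4 := by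
  have h1 : ∑ m ∈ Finset.range N, cw k m ^ 2 ≤
      ∑ m ∈ Finset.range (k + 1 + N), cw k m ^ 2 := by
    refine Finset.sum_le_sum_of_subset_of_nonneg ?_ fun m _ _ => sq_nonneg _
    intro m hm
    rw [Finset.mem_range] at hm ⊢
    omega
  have h2 : ∑ m ∈ Finset.range (k + 1 + N), cw k m ^ 2 =
      ∑ m ∈ Finset.range (k + 1), cw k m ^ 2 + ∑ i ∈ Finset.range N, cw k (k + 1 + i) ^ 2 :=
    Finset.sum_range_add _ _ _
  have h3 : ∑ i ∈ Finset.range N, cw k (k + 1 + i) ^ 2 =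
      ∑ i ∈ Finset.range N, (1 / ((i : ℝ) + 1)) ^ 2 := by
    refine Finset.sum_congr rfl fun i _ => ?_
    unfold cw
    rw [if_neg (by omega)]
    have e : ((k + 1 + i : ℕ) : ℝ) - k = (i : ℝ) + 1 := by push_cast; ring
    rw [e, abs_of_pos (by positivity)]
  have h4 : ∑ m ∈ Finset.range (k + 1), cw k m ^ 2 =
      ∑ i ∈ Finset.range k, (1 / ((i : ℝ) + 1)) ^ 2 := by
    rw [Finset.sum_range_succ]
    have e0 : cw k k ^ 2 = 0 := by
      unfold cw
      rw [if_pos rfl]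
      norm_num
    rw [e0, add_zero, ← Finset.sum_range_reflect]
    refine Finset.sum_congr rfl fun i hi => ?_
    rw [Finset.mem_range] at hi
    unfold cw
    rw [if_neg (by omega)]
    have e : ((k - 1 - i : ℕ) : ℝ) = (k : ℝ) - (i + 1) := by
      have : (k - 1 - i) + (i + 1) = k := by omega
      have h5 : ((k - 1 - i : ℕ) : ℝ) + (i + 1) = k := by exact_mod_cast this
      linarith
    rw [e]
    have e2 : (k : ℝ) - (i + 1) - k = -((i : ℝ) + 1) := by ring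
    rw [e2, abs_neg, abs_of_pos (by positivity)]
  rw [h2, h3, h4] at h1
  have h5 := sum_inv k
  have h6 := sum_inv N
  linarith

/-- the denominators -/
theorem den {k m : ℕ} (hm : m ≠ k) {b : ℝ} (hb : |b| ≤ 1 / 4) :
    |(m : ℝ) - k| * ((k : ℝ) + 1) ≤ |((m : ℝ) + 1) ^ 2 - ((k : ℝ) + 1) ^ 2 - b| := by
  have h1 : 1 ≤ |(m : ℝ) - k| := by
    have h2 : (1 : ℤ) ≤ |(m : ℤ) - k| := Int.one_le_abs (by omega)
    have h3 : ((1 : ℤ) : ℝ) ≤ ((|(m : ℤ) - k| : ℤ) : ℝ) := by exact_mod_cast h2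
    push_cast at h3
    exact h3
  have hm0 : (0 : ℝ) ≤ m := Nat.cast_nonneg m
  have hk0 : (0 : ℝ) ≤ k := Nat.cast_nonneg k
  have e : ((m : ℝ) + 1) ^ 2 - ((k : ℝ) + 1) ^ 2 = ((m : ℝ) - k) * (m + k + 2) := by ring
  have h4 : |((m : ℝ) + 1) ^ 2 - ((k : ℝ) + 1) ^ 2| = |(m : ℝ) - k| * (m + k + 2) := by
    rw [e, abs_mul, abs_of_nonneg (by positivity : (0 : ℝ) ≤ m + k + 2)]
  have h5 : |((m : ℝ) + 1) ^ 2 - ((k : ℝ) + 1) ^ 2| - |b| ≤
      |((m : ℝ) + 1) ^ 2 - ((k : ℝ) + 1) ^ 2 - b| := abs_sub_abs_le_abs_sub _ _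
  rw [h4] at h5
  nlinarith

/-- PTA. -/
theorem pta : PtaStmt := by
  intro H _ _ _ s Bo c0 ε k hε hε8 hB
  have hk1 : (0 : ℝ) < (k : ℝ) + 1 := by positivity
  have hk2 : (1 : ℝ) ≤ (k : ℝ) + 1 := by
    have : (0 : ℝ) ≤ k := Nat.cast_nonneg k
    linarith
  have hsk : ‖s k‖ = 1 := s.orthonormal.1 k
  set y : H → H := fun h => Bo (s k + h) - c0 • (s k + h) with hy
  set b : H → ℝ := fun h => ⟪s k, y h⟫_ℝ with hb
  have hyb : ∀ h : H, ‖h‖ ≤ 1 → ‖y h‖ ≤ 2 * ε := by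
    intro h hh
    have h1 : ‖s k + h‖ ≤ 2 := by
      have := norm_add_le (s k) h
      rw [hsk] at this
      linarith
    calc ‖y h‖ ≤ ε * ‖s k + h‖ := hB _
      _ ≤ ε * 2 := mul_le_mul_of_nonneg_left h1 hε
      _ = 2 * ε := by ring
  have hyd : ∀ h h' : H, ‖y h - y h'‖ ≤ ε * ‖h - h'‖ := by
    intro h h'
    have e : y h - y h' = Bo (h - h') - c0 • (h - h') := by
      simp only [hy, map_add, map_sub, smul_add, smul_sub]
      abel
    rw [e]
    exact hB _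
  have hbb : ∀ h : H, ‖h‖ ≤ 1 → |b h| ≤ 2 * ε := by
    intro h hh
    have h1 := abs_real_inner_le_norm (s k) (y h)
    rw [hsk, one_mul] at h1
    exact h1.trans (hyb h hh)
  have hbd : ∀ h h' : H, |b h - b h'| ≤ ε * ‖h - h'‖ := by
    intro h h'
    have e : b h - b h' = ⟪s k, y h - y h'⟫_ℝ := by
      exact (inner_sub_right (s k) (y h) (y h')).symm
    rw [e]
    have h1 := abs_real_inner_le_norm (s k) (y h - y h')
    rw [hsk, one_mul] at h1
    exact h1.trans (hyd h h')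
  set D : H → ℕ → ℝ := fun h m => ((m : ℝ) + 1) ^ 2 - ((k : ℝ) + 1) ^ 2 - b h with hD
  have hDi : ∀ h : H, ‖h‖ ≤ 1 → ∀ m, m ≠ k → |(m : ℝ) - k| * ((k : ℝ) + 1) ≤ |D h m| := by
    intro h hh m hm
    exact den hm ((hbb h hh).trans (by linarith))
  have habs1 : ∀ m : ℕ, m ≠ k → 1 ≤ |(m : ℝ) - k| := by
    intro m hm
    have h2 : (1 : ℤ) ≤ |(m : ℤ) - k| := Int.one_le_abs (by omega)
    have h3 : ((1 : ℤ) : ℝ) ≤ ((|(m : ℤ) - k| : ℤ) : ℝ) := by exact_mod_cast h2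
    push_cast at h3
    exact h3
  have hDn : ∀ h : H, ‖h‖ ≤ 1 → ∀ m, m ≠ k → (k : ℝ) + 1 ≤ |D h m| := by
    intro h hh m hm
    refine le_trans ?_ (hDi h hh m hm)
    nlinarith [habs1 m hm]
  have hDm : ∀ h : H, ‖h‖ ≤ 1 → ∀ m, m ≠ k → |(m : ℝ) - k| ≤ |D h m| := by
    intro h hh m hm
    refine le_trans ?_ (hDi h hh m hm)
    nlinarith [habs1 m hm]
  have hD0 : ∀ h : H, ‖h‖ ≤ 1 → ∀ m, m ≠ k → D h m ≠ 0 := by
    intro h hh m hm h0
    have := hDn h hh m hm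
    rw [h0, abs_zero] at this
    linarith
  -- the coefficients
  set a : H → ℕ → ℝ := fun h m => if m = k then 0 else -(1 / D h m) with ha
  have haA : ∀ h : H, ‖h‖ ≤ 1 → ∀ m, |a h m| ≤ 1 / ((k : ℝ) + 1) := by
    intro h hh m
    by_cases hm : m = k
    · simp only [ha, if_pos hm, abs_zero]
      positivity
    · simp only [ha, if_neg hm, abs_neg, abs_div, abs_one]
      exact one_div_le_one_div_of_le hk1 (hDn h hh m hm)
  have hex : ∀ h : H, ‖h‖ ≤ 1 → ∃ z : H, (∀ m, ⟪s m, z⟫_ℝ = a h m * ⟪s m, y h⟫_ℝ) ∧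
      ‖z‖ ≤ 2 * ε / ((k : ℝ) + 1) := by
    intro h hh
    obtain ⟨z, hz1, hz2⟩ := diag s (a h) (1 / ((k : ℝ) + 1)) (by positivity) (haA h hh) (y h)
    refine ⟨z, hz1, hz2.trans ?_⟩
    calc 1 / ((k : ℝ) + 1) * ‖y h‖ ≤ 1 / ((k : ℝ) + 1) * (2 * ε) :=
          mul_le_mul_of_nonneg_left (hyb h hh) (by positivity)
      _ = 2 * ε / ((k : ℝ) + 1) := by ring
  choose! Φ hΦ1 hΦ2 using hex
  have hmaps : MapsTo Φ (Metric.closedBall 0 1) (Metric.closedBall 0 1) := by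
    intro h hh
    rw [mem_closedBall_zero_iff] at hh ⊢
    refine (hΦ2 h hh).trans ?_
    rw [div_le_one hk1]
    linarith
  have hlip : ∀ h h' : H, ‖h‖ ≤ 1 → ‖h'‖ ≤ 1 → ‖Φ h - Φ h'‖ ≤ 1 / 2 * ‖h - h'‖ := by
    intro h h' hh hh'
    obtain ⟨z1, hz1, hz1n⟩ := diag s (a h) (1 / ((k : ℝ) + 1)) (by positivity) (haA h hh)
      (y h - y h')
    obtain ⟨z2, hz2, hz2n⟩ := diag s (fun m => a h m - a h' m) |b h - b h'| (abs_nonneg _)
      (fun m => by
        by_cases hm : m = k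
        · simp only [ha, if_pos hm, sub_self, abs_zero]
          exact abs_nonneg _
        · simp only [ha, if_neg hm]
          have e : -(1 / D h m) - -(1 / D h' m) = -((b h - b h') / (D h m * D h' m)) := by
            have h1 := hD0 h hh m hm
            have h2 := hD0 h' hh' m hm
            have h3 : D h' m - D h m = b h - b h' := by simp only [hD]; ring
            rw [← h3]
            field_simp
            ring
          rw [e, abs_neg, abs_div, abs_mul]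
          have h4 : 1 ≤ |D h m| * |D h' m| := by
            have := hDn h hh m hm
            have := hDn h' hh' m hm
            nlinarith
          exact div_le_self (abs_nonneg _) h4) (y h')
    have e : Φ h - Φ h' = z1 + z2 := by
      apply ext_coef s
      intro m
      rw [inner_sub_right (s m) (Φ h) (Φ h'), inner_add_right (s m) z1 z2, hΦ1 h hh, hΦ1 h' hh',
        hz1, hz2, inner_sub_right (s m) (y h) (y h')]
      ring
    rw [e]
    have h1 : ‖z1‖ ≤ ε * ‖h - h'‖ := by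
      refine hz1n.trans ?_
      have h2 : 1 / ((k : ℝ) + 1) ≤ 1 := by
        rw [div_le_one hk1]
        exact hk2
      calc 1 / ((k : ℝ) + 1) * ‖y h - y h'‖ ≤ 1 * ‖y h - y h'‖ :=
            mul_le_mul_of_nonneg_right h2 (norm_nonneg _)
        _ = ‖y h - y h'‖ := one_mul _
        _ ≤ ε * ‖h - h'‖ := hyd h h'
    have h2 : ‖z2‖ ≤ ε * ‖h - h'‖ * (2 * ε) :=
      hz2n.trans (mul_le_mul (hbd h h') (hyb h' hh') (norm_nonneg _)
        (mul_nonneg hε (norm_nonneg _)))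
    have h3 := norm_add_le z1 z2
    have h4 : 0 ≤ ‖h - h'‖ := norm_nonneg _
    have h5 : ε * ‖h - h'‖ ≤ 1 / 8 * ‖h - h'‖ := mul_le_mul_of_nonneg_right hε8 h4
    have h6 : ε * ‖h - h'‖ * (2 * ε) ≤ 1 / 8 * ‖h - h'‖ * (2 * (1 / 8)) :=
      mul_le_mul h5 (by linarith) (by linarith) (by linarith)
    linarith
  have hcon : ContractingWith (1 / 2 : ℝ≥0) (hmaps.restrict Φ _ _) := by
    refine ⟨by
      rw [← NNReal.coe_lt_coe]
      norm_num, ?_⟩
    refine LipschitzWith.of_dist_le_mul fun u v => ?_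
    rw [Subtype.dist_eq, Subtype.dist_eq, dist_eq_norm, dist_eq_norm]
    have hu := mem_closedBall_zero_iff.1 u.2
    have hv := mem_closedBall_zero_iff.1 v.2
    have := hlip u v hu hv
    simpa using this
  obtain ⟨h, hh, hfix, _⟩ := hcon.exists_fixedPoint' (Metric.isClosed_closedBall.isComplete)
    hmaps (Metric.mem_closedBall_self zero_le_one : (0 : H) ∈ Metric.closedBall 0 1)
    (edist_ne_top _ _)
  have hh1 : ‖h‖ ≤ 1 := mem_closedBall_zero_iff.1 hh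
  have hco : ∀ m, ⟪s m, h⟫_ℝ = a h m * ⟪s m, y h⟫_ℝ := by
    intro m
    have := hΦ1 h hh1 m
    rwa [hfix] at this
  have hn : ‖h‖ ≤ 2 * ε / ((k : ℝ) + 1) := by
    have := hΦ2 h hh1
    rwa [hfix] at this
  have hk0 : ⟪s k, h⟫_ℝ = 0 := by
    rw [hco k]
    simp only [ha, if_true, zero_mul]
  refine ⟨h, ((k : ℝ) + 1) ^ 2 + c0 + b h, hk0, hn, ?_, ?_, ?_⟩
  · have e : ((k : ℝ) + 1) ^ 2 + c0 + b h - (((k : ℝ) + 1) ^ 2 + c0) = b h := by ring
    rw [e]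
    exact hbb h hh1
  · intro m
    have hBx : ⟪s m, Bo (s k + h)⟫_ℝ = ⟪s m, y h⟫_ℝ + c0 * ⟪s m, s k + h⟫_ℝ := by
      have e : Bo (s k + h) = y h + c0 • (s k + h) := by simp only [hy]; abel
      rw [e, inner_add_right, real_inner_smul_right]
    show ((m : ℝ) + 1) ^ 2 * ⟪s m, s k + h⟫_ℝ + ⟪s m, Bo (s k + h)⟫_ℝ = _
    rw [hBx]
    by_cases hm : m = k
    · subst hm
      have e1 : ⟪s m, s m + h⟫_ℝ = 1 := by
        rw [inner_add_right, hk0, real_inner_self_eq_norm_sq, hsk]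
        norm_num
      rw [e1]
      have e2 : ⟪s m, y h⟫_ℝ = b h := rfl
      rw [e2]
      ring
    · have e1 : ⟪s m, s k + h⟫_ℝ = ⟪s m, h⟫_ℝ := by
        rw [inner_add_right, s.orthonormal.2 hm, zero_add]
      rw [e1]
      have h2 := hD0 h hh1 m hm
      have h3 : D h m * ⟪s m, h⟫_ℝ = -⟪s m, y h⟫_ℝ := by
        rw [hco m]
        simp only [ha, if_neg hm]
        field_simp
      have h4 : D h m = ((m : ℝ) + 1) ^ 2 - ((k : ℝ) + 1) ^ 2 - b h := rfl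
      rw [h4] at h3
      linarith
  · intro N
    have h1 : ∀ m, |⟪s m, h⟫_ℝ| ≤ |⟪s m, y h⟫_ℝ| * cw k m := by
      intro m
      by_cases hm : m = k
      · subst hm
        rw [hk0, abs_zero]
        unfold cw
        rw [if_pos rfl, mul_zero]
      · rw [hco m, abs_mul, mul_comm]
        refine mul_le_mul_of_nonneg_left ?_ (abs_nonneg _)
        simp only [ha, if_neg hm, abs_neg, abs_div, abs_one]
        unfold cw
        rw [if_neg hm]
        exact one_div_le_one_div_of_le (lt_of_lt_of_le one_pos (habs1 m hm)) (hDm h hh1 m hm)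
    have h2 : ∑ m ∈ Finset.range N, |⟪s m, h⟫_ℝ| ≤
        ∑ m ∈ Finset.range N, |⟪s m, y h⟫_ℝ| * cw k m := Finset.sum_le_sum fun m _ => h1 m
    have h3 := Finset.sum_mul_sq_le_sq_mul_sq (Finset.range N) (fun m => |⟪s m, y h⟫_ℝ|)
      (fun m => cw k m)
    have h4 : ∑ m ∈ Finset.range N, |⟪s m, y h⟫_ℝ| ^ 2 ≤ ‖y h‖ ^ 2 := by
      have := s.orthonormal.sum_inner_products_le (x := y h) (s := Finset.range N)
      exact this
    have h5 : ‖y h‖ ^ 2 ≤ (2 * ε) ^ 2 := pow_le_pow_left₀ (norm_nonneg _) (hyb h hh1) 2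
    have h6 : (∑ m ∈ Finset.range N, |⟪s m, y h⟫_ℝ| * cw k m) ^ 2 ≤ (4 * ε) ^ 2 := by
      refine h3.trans ?_
      have h7 : (∑ m ∈ Finset.range N, |⟪s m, y h⟫_ℝ| ^ 2) *
          ∑ m ∈ Finset.range N, cw k m ^ 2 ≤ (2 * ε) ^ 2 * 4 :=
        mul_le_mul (h4.trans h5) (sum_cw k N) (Finset.sum_nonneg fun m _ => sq_nonneg _)
          (sq_nonneg _)
      refine h7.trans (le_of_eq ?_)
      ring
    have h8 := abs_le_of_sq_le_sq h6 (by linarith)
    exact h2.trans ((le_abs_self _).trans h8)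

end

end Pool.Agent.BEW.H89
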