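import Pool.Agent.BEW.StmtsD

/-!
# Row DER of squad BEW: derivatives
-/

set_option autoImplicit false

namespace Pool.Agent.BEW.H89

open Set Filter Topology MeasureTheory
open scoped InnerProductSpace ENNReal
open Pool.Agent.BE01 Pool.Agent.BEL Pool.Agent.BEG Pool.Agent.BEH Pool.Agent.BER Pool.Agent.BEW

noncomputable section

theorem ql_cont {al : ℝ} (hal : 0 < al) : Continuous (ql 1 al 1) := by
  unfold ql mm
  exact continuous_const.mul ((continuous_abs.min continuous_const).rpow_const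
    fun _ => Or.inr hal.le)

theorem ql_bdd {al : ℝ} (hal : 0 < al) (s : ℝ) : |ql 1 al 1 s| ≤ al + 1 := by
  unfold ql mm
  have h0 : 0 ≤ min |s| 1 := le_min (abs_nonneg s) zero_le_one
  have h1 : (min |s| 1) ^ al ≤ 1 := Real.rpow_le_one h0 (min_le_right _ _) hal.le
  have h2 : 0 ≤ (min |s| 1) ^ al := Real.rpow_nonneg h0 _
  rw [abs_of_nonneg (mul_nonneg (by linarith) h2)]
  nlinarith

theorem gl_der {al : ℝ} (hal : 0 < al) (s : ℝ) : HasDerivAt (gl 1 al 1) (ql 1 al 1 s) s :=
  intervalIntegral.integral_hasDerivAt_right ((ql_cont hal).intervalIntegrable _ _)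
    ((ql_cont hal).stronglyMeasurableAtFilter _ _) (ql_cont hal).continuousAt

theorem gl_cont {al : ℝ} (hal : 0 < al) : Continuous (gl 1 al 1) :=
  continuous_iff_continuousAt.2 fun s => (gl_der hal s).continuousAt

theorem gl_bdd {al : ℝ} (hal : 0 < al) (s : ℝ) : |gl 1 al 1 s| ≤ (al + 1) * |s| := by
  have h := intervalIntegral.norm_integral_le_of_norm_le_const (a := 0) (b := s)
    (f := ql 1 al 1) (C := al + 1) fun x _ => ql_bdd hal x
  rw [sub_zero] at h
  exact h

section

variable {X : Type} [MeasurableSpace X] {μ : Measure X} {b : ℕ → X → ℝ} {B m0 al : ℝ}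
  {om : ℕ → ℝ} {M : ℕ} {p v : ℕ → ℝ → ℝ}

theorem bk (h : Ons μ b B m0) (k : ℕ) (x : X) : |b k x| ≤ |B| :=
  (h.bdd k x).trans (le_abs_self B)

theorem vel_meas (h : Ons μ b B m0) (S : Finset ℕ) (c : ℕ → ℝ → ℝ) (t : ℝ) :
    Measurable (vel b S c t) := by
  unfold vel
  exact Finset.measurable_fun_sum S fun k _ => (h.meas k).const_mul _

theorem vel_bdd (h : Ons μ b B m0) (S : Finset ℕ) (c : ℕ → ℝ → ℝ) (t : ℝ) (x : X) :
    |vel b S c t x| ≤ (∑ k ∈ S, |c k t|) * |B| := by
  unfold vel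
  rw [Finset.sum_mul]
  refine (Finset.abs_sum_le_sum_abs _ _).trans (Finset.sum_le_sum fun k _ => ?_)
  rw [abs_mul]
  exact mul_le_mul_of_nonneg_left (bk h k x) (abs_nonneg _)

theorem int_ok (h : Ons μ b B m0) {f : X → ℝ} (hf : Measurable f) (C : ℝ)
    (hC : ∀ x, |f x| ≤ C) : Integrable f μ := by
  have := h.fin
  exact Integrable.of_bound hf.aestronglyMeasurable C (Eventually.of_forall hC)

theorem G_meas (h : Ons μ b B m0) (hal : 0 < al) (S : Finset ℕ) (t : ℝ) (k : ℕ) :
    Measurable fun x => gl 1 al 1 (vel b S v t x) * b k x :=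
  ((gl_cont hal).measurable.comp (vel_meas h S v t)).mul (h.meas k)

theorem G_bdd (h : Ons μ b B m0) (hal : 0 < al) (S : Finset ℕ) (t : ℝ) (k : ℕ) (x : X) :
    |gl 1 al 1 (vel b S v t x) * b k x| ≤ (al + 1) * ((∑ k ∈ S, |v k t|) * |B|) * |B| := by
  rw [abs_mul]
  have h1 : |gl 1 al 1 (vel b S v t x)| ≤ (al + 1) * ((∑ k ∈ S, |v k t|) * |B|) :=
    (gl_bdd hal _).trans (mul_le_mul_of_nonneg_left (vel_bdd h S v t x) (by linarith))
  exact mul_le_mul h1 (bk h k x) (abs_nonneg _) (le_trans (abs_nonneg _) h1)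

theorem G_int (h : Ons μ b B m0) (hal : 0 < al) (S : Finset ℕ) (t : ℝ) (k : ℕ) :
    Integrable (fun x => gl 1 al 1 (vel b S v t x) * b k x) μ :=
  int_ok h (G_meas h hal S t k) _ (G_bdd h hal S t k)

theorem H_meas (h : Ons μ b B m0) (hal : 0 < al) (S : Finset ℕ) (t : ℝ) (k : ℕ) :
    Measurable fun x => ql 1 al 1 (vel b S v t x) * vel b S (dd v) t x * b k x :=
  (((ql_cont hal).measurable.comp (vel_meas h S v t)).mul (vel_meas h S (dd v) t)).mul
    (h.meas k)

theorem H_bdd (h : Ons μ b B m0) (hal : 0 < al) (S : Finset ℕ) (t : ℝ) (k : ℕ) (x : X) :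
    |ql 1 al 1 (vel b S v t x) * vel b S (dd v) t x * b k x| ≤
      (al + 1) * ((∑ k ∈ S, |dd v k t|) * |B|) * |B| := by
  rw [abs_mul, abs_mul]
  have h1 : |ql 1 al 1 (vel b S v t x)| * |vel b S (dd v) t x| ≤
      (al + 1) * ((∑ k ∈ S, |dd v k t|) * |B|) :=
    mul_le_mul (ql_bdd hal _) (vel_bdd h S (dd v) t x) (abs_nonneg _) (by linarith)
  exact mul_le_mul h1 (bk h k x) (abs_nonneg _)
    (le_trans (mul_nonneg (abs_nonneg _) (abs_nonneg _)) h1)

theorem H_int (h : Ons μ b B m0) (hal : 0 < al) (S : Finset ℕ) (t : ℝ) (k : ℕ) :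
    Integrable (fun x => ql 1 al 1 (vel b S v t x) * vel b S (dd v) t x * b k x) μ :=
  int_ok h (H_meas h hal S t k) _ (H_bdd h hal S t k)

theorem dd_eq (hG : Gal μ b om M al p v) {k : ℕ} (hk : k < M) (t : ℝ) :
    dd v k t = -(om k * p k t) -
      ∫ x, gl 1 al 1 (vel b (Finset.range M) v t x) * b k x ∂μ := by
  unfold dd
  exact (hG.dv k hk t).deriv

theorem dd_der (hG : Gal μ b om M al p v) {k : ℕ} (hk : k < M) (t : ℝ) :
    HasDerivAt (v k) (dd v k t) t := by
  rw [dd_eq hG hk]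
  exact hG.dv k hk t

theorem vel_der (hG : Gal μ b om M al p v) (x : X) (t : ℝ) :
    HasDerivAt (fun t => vel b (Finset.range M) v t x) (vel b (Finset.range M) (dd v) t x) t := by
  unfold vel
  exact HasDerivAt.fun_sum fun k hk => (dd_der hG (Finset.mem_range.1 hk) t).mul_const _

/-- local bounds -/
theorem loc (h : Ons μ b B m0) (hal : 0 < al) (hG : Gal μ b om M al p v) (t : ℝ) :
    ∃ D : ℝ, ∃ s ∈ 𝓝 t, ∀ τ ∈ s, ∑ k ∈ Finset.range M, |dd v k τ| ≤ D := by
  have hv : ContinuousAt (fun τ => ∑ k ∈ Finset.range M, |v k τ|) t :=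
    tendsto_finsetSum _ fun k hk => ((hG.dv k (Finset.mem_range.1 hk) t).continuousAt).abs
  have hp : ContinuousAt (fun τ => ∑ k ∈ Finset.range M, |om k * p k τ|) t :=
    tendsto_finsetSum _ fun k hk =>
      (((hG.dp k (Finset.mem_range.1 hk) t).continuousAt).const_mul _).abs
  obtain ⟨K1, hK1⟩ : ∃ K, ∀ᶠ τ in 𝓝 t, ∑ k ∈ Finset.range M, |v k τ| < K :=
    ⟨_, hv.eventually (gt_mem_nhds (lt_add_one _))⟩
  obtain ⟨K2, hK2⟩ : ∃ K, ∀ᶠ τ in 𝓝 t, ∑ k ∈ Finset.range M, |om k * p k τ| < K :=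
    ⟨_, hp.eventually (gt_mem_nhds (lt_add_one _))⟩
  refine ⟨K2 + M * ((al + 1) * (K1 * |B|) * |B| * μ.real univ), _, hK1.and hK2, ?_⟩
  rintro τ ⟨h1, h2⟩
  have h3 : ∀ k ∈ Finset.range M, |dd v k τ| ≤ |om k * p k τ| +
      (al + 1) * (K1 * |B|) * |B| * μ.real univ := by
    intro k hk
    rw [dd_eq hG (Finset.mem_range.1 hk)]
    refine (abs_sub _ _).trans ?_
    rw [abs_neg]
    refine add_le_add le_rfl ?_
    have := h.fin
    rw [← Real.norm_eq_abs]
    refine norm_integral_le_of_norm_le_const (μ := μ)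
      (f := fun x => gl 1 al 1 (vel b (Finset.range M) v τ x) * b k x)
      (Eventually.of_forall fun x => ?_)
    refine (G_bdd h hal (Finset.range M) τ k x).trans ?_
    have h4 : (∑ k ∈ Finset.range M, |v k τ|) * |B| ≤ K1 * |B| :=
      mul_le_mul_of_nonneg_right (le_of_lt h1) (abs_nonneg _)
    have h5 : (al + 1) * ((∑ k ∈ Finset.range M, |v k τ|) * |B|) ≤ (al + 1) * (K1 * |B|) :=
      mul_le_mul_of_nonneg_left h4 (by linarith)
    exact mul_le_mul_of_nonneg_right h5 (abs_nonneg _)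
  refine (Finset.sum_le_sum h3).trans ?_
  rw [Finset.sum_add_distrib, Finset.sum_const, Finset.card_range, nsmul_eq_mul]
  exact add_le_add (le_of_lt h2) le_rfl

/-- the derivative of `G_k` -/
theorem G_der (h : Ons μ b B m0) (hal : 0 < al) (hG : Gal μ b om M al p v) (k : ℕ) (t : ℝ) :
    HasDerivAt (fun t => ∫ x, gl 1 al 1 (vel b (Finset.range M) v t x) * b k x ∂μ)
      (∫ x, ql 1 al 1 (vel b (Finset.range M) v t x) * vel b (Finset.range M) (dd v) t x *
        b k x ∂μ) t := by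
  obtain ⟨D, s, hs, hD⟩ := loc h hal hG t
  have := h.fin
  refine (hasDerivAt_integral_of_dominated_loc_of_deriv_le (μ := μ) (s := s)
    (F := fun t x => gl 1 al 1 (vel b (Finset.range M) v t x) * b k x)
    (F' := fun t x => ql 1 al 1 (vel b (Finset.range M) v t x) *
      vel b (Finset.range M) (dd v) t x * b k x)
    (bound := fun _ => (al + 1) * (D * |B|) * |B|) hs
    (Eventually.of_forall fun τ => (G_meas h hal _ τ k).aestronglyMeasurable)
    (G_int h hal _ t k) (H_meas h hal _ t k).aestronglyMeasurable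
    (Eventually.of_forall fun x τ hτ => ?_) (integrable_const _)
    (Eventually.of_forall fun x τ hτ => ?_)).2
  · refine (H_bdd h hal (Finset.range M) τ k x).trans ?_
    have h4 : (∑ k ∈ Finset.range M, |dd v k τ|) * |B| ≤ D * |B| :=
      mul_le_mul_of_nonneg_right (hD τ hτ) (abs_nonneg _)
    have h5 : (al + 1) * ((∑ k ∈ Finset.range M, |dd v k τ|) * |B|) ≤ (al + 1) * (D * |B|) :=
      mul_le_mul_of_nonneg_left h4 (by linarith)
    exact mul_le_mul_of_nonneg_right h5 (abs_nonneg _)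
  · exact ((gl_der hal _).comp τ (vel_der hG x τ)).mul_const _

/-- the second derivative -/
theorem dd2 (h : Ons μ b B m0) (hal : 0 < al) (hG : Gal μ b om M al p v) {k : ℕ} (hk : k < M)
    (t : ℝ) : HasDerivAt (dd v k) (-(om k ^ 2 * v k t) -
    ∫ x, ql 1 al 1 (vel b (Finset.range M) v t x) * vel b (Finset.range M) (dd v) t x *
      b k x ∂μ) t := by
  have h1 : dd v k = fun t => -(om k * p k t) -
      ∫ x, gl 1 al 1 (vel b (Finset.range M) v t x) * b k x ∂μ :=
    funext fun t => dd_eq hG hk t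
  rw [h1]
  have h2 := (((hG.dp k hk t).const_mul (om k)).neg).sub (G_der h hal hG k t)
  have e : -(om k * (om k * v k t)) = -(om k ^ 2 * v k t) := by ring
  rw [e] at h2
  exact h2

end

/-- DER. -/
theorem der : DerStmt := by
  intro X _ μ b om M al B m0 p v hal h hM hG
  refine ⟨fun t => ?_, fun t => ?_, fun k hk t => dd2 h hal hG hk t, fun t => ?_⟩
  · have h1 := ((hG.dp 0 hM t).pow 2).add ((hG.dv 0 hM t).pow 2)
    have e : R2 p v = (p 0) ^ 2 + (v 0) ^ 2 := by
      funext t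
      rfl
    rw [e]
    refine h1.congr_deriv ?_
    push_cast
    ring
  · have h1 : HasDerivAt (F2 M p v) (∑ k ∈ Finset.Ico 1 M,
        -(2 * (v k t * ∫ x, gl 1 al 1 (vel b (Finset.range M) v t x) * b k x ∂μ))) t := by
      unfold F2
      refine HasDerivAt.fun_sum fun k hk => ?_
      have hk' : k < M := (Finset.mem_Ico.1 hk).2
      have h2 := ((hG.dp k hk' t).fun_pow 2).fun_add ((hG.dv k hk' t).fun_pow 2)
      refine h2.congr_deriv ?_
      push_cast
      ring
    refine h1.congr_deriv ?_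
    rw [Finset.sum_neg_distrib, ← Finset.mul_sum]
    congr 2
    have e : ∀ x, gl 1 al 1 (vel b (Finset.range M) v t x) * vel b (Finset.Ico 1 M) v t x =
        ∑ k ∈ Finset.Ico 1 M, v k t * (gl 1 al 1 (vel b (Finset.range M) v t x) * b k x) := by
      intro x
      conv_lhs => rw [vel.eq_def b (Finset.Ico 1 M)]
      rw [Finset.mul_sum]
      exact Finset.sum_congr rfl fun k _ => by ring
    simp_rw [e]
    rw [integral_finsetSum _ fun k _ => (G_int h hal _ t k).const_mul _]
    exact Finset.sum_congr rfl fun k _ => (integral_const_mul _ _).symm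
  · have h1 : HasDerivAt (S2 om M v) (∑ k ∈ Finset.Ico 1 M,
        -(2 * (dd v k t * ∫ x, ql 1 al 1 (vel b (Finset.range M) v t x) *
          vel b (Finset.range M) (dd v) t x * b k x ∂μ))) t := by
      unfold S2
      refine HasDerivAt.fun_sum fun k hk => ?_
      have hk' : k < M := (Finset.mem_Ico.1 hk).2
      have h2 := (((dd_der hG hk' t).const_mul (om k)).fun_pow 2).fun_add
        ((dd2 h hal hG hk' t).fun_pow 2)
      refine h2.congr_deriv ?_
      push_cast
      ring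
    refine h1.congr_deriv ?_
    rw [Finset.sum_neg_distrib, ← Finset.mul_sum]
    congr 2
    have e : ∀ x, ql 1 al 1 (vel b (Finset.range M) v t x) *
        vel b (Finset.range M) (dd v) t x * vel b (Finset.Ico 1 M) (dd v) t x =
        ∑ k ∈ Finset.Ico 1 M, dd v k t * (ql 1 al 1 (vel b (Finset.range M) v t x) *
          vel b (Finset.range M) (dd v) t x * b k x) := by
      intro x
      conv_lhs => rw [vel.eq_def b (Finset.Ico 1 M)]
      rw [Finset.mul_sum]
      exact Finset.sum_congr rfl fun k _ => by ring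
    simp_rw [e]
    rw [integral_finsetSum _ fun k _ => (H_int h hal _ t k).const_mul _]
    exact Finset.sum_congr rfl fun k _ => (integral_const_mul _ _).symm

end

end Pool.Agent.BEW.H89
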